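import Pool.Agent.W940.LSD.Stm
import Pool.Agent.Helper256.KM.Mertens

set_option autoImplicit false

namespace Pool.Agent.W594.LSD

open Finset Filter Pool.Agent.W940.LSD

open scoped Classical

theorem LL_eq (y : ℕ) (hy : 2 ≤ y) :
    ∑ p ∈ (Finset.Icc 1 y).filter Nat.Prime, (1 : ℝ) / p = 1 / 2 + LL y := by
  have h : (Finset.Icc 1 y).filter Nat.Prime = insert 2 (PP y) := by
    ext p
    simp only [PP, Finset.mem_filter, Finset.mem_Icc, Finset.mem_insert, Finset.mem_range]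
    constructor
    · rintro ⟨⟨h1, h2⟩, h3⟩
      by_cases h : p = 2
      · exact Or.inl h
      · exact Or.inr ⟨by omega, h3, h⟩
    · rintro (rfl | ⟨h1, h2, h3⟩)
      · exact ⟨⟨by omega, hy⟩, Nat.prime_two⟩
      · exact ⟨⟨h2.one_lt.le, by omega⟩, h2⟩
  rw [h, Finset.sum_insert (by simp [PP])]
  unfold LL
  norm_num

theorem yy_ge (T : ℕ) (hT : 6561 ≤ T) : 3 ≤ yy T := by
  unfold yy
  rw [Nat.le_sqrt', Nat.le_sqrt', Nat.le_sqrt']
  norm_num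
  exact hT

theorem yy_le (T : ℕ) : (yy T) ^ 8 ≤ T := by
  unfold yy
  have h1 := Nat.sqrt_le' T
  have h2 := Nat.sqrt_le' T.sqrt
  have h3 := Nat.sqrt_le' T.sqrt.sqrt
  calc T.sqrt.sqrt.sqrt ^ 8 = ((T.sqrt.sqrt.sqrt ^ 2) ^ 2) ^ 2 := by ring
    _ ≤ (T.sqrt.sqrt ^ 2) ^ 2 := by gcongr
    _ ≤ T.sqrt ^ 2 := by gcongr
    _ ≤ T := h1

theorem lt_yy (T : ℕ) : T < (yy T + 1) ^ 8 := by
  unfold yy
  have h1 : T < (T.sqrt + 1) ^ 2 := Nat.lt_succ_sqrt' T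
  have h2 : T.sqrt + 1 ≤ (T.sqrt.sqrt + 1) ^ 2 := Nat.lt_succ_sqrt' T.sqrt
  have h3 : T.sqrt.sqrt + 1 ≤ (T.sqrt.sqrt.sqrt + 1) ^ 2 := Nat.lt_succ_sqrt' T.sqrt.sqrt
  calc T < (T.sqrt + 1) ^ 2 := h1
    _ ≤ ((T.sqrt.sqrt + 1) ^ 2) ^ 2 := by gcongr
    _ ≤ (((T.sqrt.sqrt.sqrt + 1) ^ 2) ^ 2) ^ 2 := by gcongr
    _ = (T.sqrt.sqrt.sqrt + 1) ^ 8 := by ring

theorem mer : MER := by
  obtain ⟨C, hC⟩ := Pool.Agent.Helper256.KM.mertens_inv
  refine ⟨C + 1 / 2 + Real.log 16, ?_⟩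
  filter_upwards [eventually_ge_atTop 6561] with T hT
  have hy3 : 3 ≤ yy T := yy_ge T hT
  have hyR : (3 : ℝ) ≤ (yy T : ℝ) := by exact_mod_cast hy3
  have hTR : (6561 : ℝ) ≤ (T : ℝ) := by exact_mod_cast hT
  have h1 := hC (yy T) hy3
  rw [LL_eq (yy T) (by omega)] at h1
  have hly : 0 < Real.log (yy T : ℝ) := Real.log_pos (by linarith)
  have hlT : 0 < Real.log (T : ℝ) := Real.log_pos (by linarith)
  -- upper
  have hu : 8 * Real.log (yy T : ℝ) ≤ Real.log (T : ℝ) := by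
    have : ((yy T : ℝ)) ^ 8 ≤ (T : ℝ) := by exact_mod_cast yy_le T
    have h := Real.log_le_log (by positivity) this
    rw [Real.log_pow] at h
    exact_mod_cast h
  have hl : Real.log (T : ℝ) ≤ 16 * Real.log (yy T : ℝ) := by
    have h8 : (T : ℝ) ≤ ((yy T : ℝ) ^ 2) ^ 8 := by
      have ha : (T : ℝ) < ((yy T : ℝ) + 1) ^ 8 := by exact_mod_cast lt_yy T
      have hb : (yy T : ℝ) + 1 ≤ (yy T : ℝ) ^ 2 := by nlinarith
      have hc : ((yy T : ℝ) + 1) ^ 8 ≤ ((yy T : ℝ) ^ 2) ^ 8 := by gcongr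
      linarith
    have h := Real.log_le_log (by linarith) h8
    rw [Real.log_pow, Real.log_pow] at h
    push_cast at h
    linarith
  have hA : Real.log (Real.log (yy T : ℝ)) ≤ Real.log (Real.log (T : ℝ)) := by
    apply Real.log_le_log hly
    linarith
  have hB : Real.log (Real.log (T : ℝ)) ≤ Real.log 16 + Real.log (Real.log (yy T : ℝ)) := by
    rw [← Real.log_mul (by norm_num) hly.ne']
    exact Real.log_le_log hlT hl
  have h16 : 0 ≤ Real.log 16 := Real.log_nonneg (by norm_num)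
  rw [abs_le] at h1 ⊢
  constructor
  · linarith [h1.1]
  · linarith [h1.2]

end Pool.Agent.W594.LSD
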